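import Mathlib

/-!
# MP_417c68_gt: definitions for the statements about compact standard quotients

`MM N` is the algebra `∏ i, M_{N i}(ℝ)` and `GG N` is its group of units `∏ i, GL(N i, ℝ)`.
-/

noncomputable section

namespace Pool.Agent.MP417S

open Matrix Module

variable {n m : ℕ} {N : Fin n → ℕ}

/-- the algebra `∏ i, M_{N i}(ℝ)` -/
def MM (N : Fin n → ℕ) : Type := ∀ i, Matrix (Fin (N i)) (Fin (N i)) ℝ

instance instRingMM : Ring (MM N) := @Pi.ring (Fin n) (fun i => Matrix (Fin (N i)) (Fin (N i)) ℝ) _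

instance instModuleMM : Module ℝ (MM N) :=
  @Pi.module (Fin n) (fun i => Matrix (Fin (N i)) (Fin (N i)) ℝ) ℝ _ _ _

instance instTopMM : TopologicalSpace (MM N) :=
  @Pi.topologicalSpace (Fin n) (fun i => Matrix (Fin (N i)) (Fin (N i)) ℝ) _

/-- the group `∏ i, GL(N i, ℝ)` -/
def GG (N : Fin n → ℕ) : Type := (MM N)ˣ

instance instGroupGG : Group (GG N) := @Units.instGroup (MM N) _

instance instTopGG : TopologicalSpace (GG N) := @Units.instTopologicalSpaceUnits (MM N) _ _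

/-- the matrices of `g` -/
def mt (g : GG N) : MM N := Units.val g

/-- the transposed matrices -/
def tp (X : MM N) : MM N := fun i => (X i)ᵀ

/-- the exponential -/
def ex (X : MM N) : MM N := fun i => NormedSpace.exp (X i)

/-- the symmetric part `𝔭(G)` of the Lie algebra of `G`: all symmetric `X` with `exp (t X) ∈ G` for
all real `t` -/
def pp (G : Subgroup (GG N)) : Set (MM N) :=
  {X | tp X = X ∧ ∀ t : ℝ, ∃ g ∈ G, mt g = ex (t • X)}

/-- `G` is closed and has a Cartan decomposition with respect to the transpose: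
every `g ∈ G` satisfies `gᵀ g = exp X` with a symmetric `X` in the Lie algebra of `G` -/
def SelfAdj (G : Subgroup (GG N)) : Prop :=
  IsClosed (G : Set (GG N)) ∧ ∀ g ∈ G, ∃ X ∈ pp G, tp (mt g) * mt g = ex X

/-- the conjugate subgroup `a H a⁻¹` -/
def cj (a : GG N) (H : Subgroup (GG N)) : Subgroup (GG N) := H.map (MulAut.conj a).toMonoidHom

/-- `H` is a closed subgroup of `G`, reductive in `G`: some conjugate `a H a⁻¹`, `a ∈ G`, has a
Cartan decomposition with respect to the Cartan involution of the ambient group. -/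
def Red (G H : Subgroup (GG N)) : Prop := H ≤ G ∧ ∃ a ∈ G, SelfAdj (cj a H)

/-- the action of `L` on `G/H` is proper: for every compact `C ⊆ G` the set of all `l ∈ L` with
`l C H ∩ C H ≠ ∅` is relatively compact -/
def ProperAct (G H L : Subgroup (GG N)) : Prop :=
  ∀ C : Set (GG N), IsCompact C → C ⊆ G → ∃ K : Set (GG N), IsCompact K ∧
    ∀ l ∈ L, ∀ h ∈ H, ∀ c ∈ C, ∀ c' ∈ C, l * c = c' * h → l ∈ K

/-- `L \ G / H` is compact: `G = L C H` for a compact subset `C` of `G` -/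
def Cocompact (G H L : Subgroup (GG N)) : Prop :=
  ∃ C : Set (GG N), IsCompact C ∧ C ⊆ G ∧ ∀ g ∈ G, ∃ l ∈ L, ∃ c ∈ C, ∃ h ∈ H, g = l * c * h

/-- `L` acts properly and cocompactly on `G/H` -/
def PC (G H L : Subgroup (GG N)) : Prop := ProperAct G H L ∧ Cocompact G H L

/-- some closed subgroup `L`, reductive in `G`, acts properly and cocompactly on `G/H` -/
def Std (G H : Subgroup (GG N)) : Prop := ∃ L, Red G L ∧ PC G H L

/-- `Γ` is a discrete torsion-free subgroup -/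
def DTF (Γ : Subgroup (GG N)) : Prop :=
  DiscreteTopology Γ ∧ ∀ γ ∈ Γ, ∀ m : ℕ, 0 < m → γ ^ m = 1 → γ = 1

/-- `G/H` admits a compact standard quotient -/
def CSQ (G H : Subgroup (GG N)) : Prop :=
  ∃ L Γ, Red G L ∧ ProperAct G H L ∧ Γ ≤ L ∧ DTF Γ ∧ Cocompact G H Γ

/-- `H` is cocompact in `H'` -/
def CocptIn (H H' : Subgroup (GG N)) : Prop :=
  H ≤ H' ∧ ∃ C : Set (GG N), IsCompact C ∧ ∀ g ∈ H', ∃ c ∈ C, ∃ h ∈ H, g = c * h

/-- `L` has a torsion-free cocompact lattice -/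
def HasLat (L : Subgroup (GG N)) : Prop :=
  ∃ Γ ≤ L, DTF Γ ∧ ∃ D : Set (GG N), IsCompact D ∧ D ⊆ L ∧ ∀ l ∈ L, ∃ γ ∈ Γ, ∃ d ∈ D, l = γ * d

/-- the maximal compact subgroup `K` of `G`: the orthogonal elements of `G` -/
def KK (G : Subgroup (GG N)) : Set (GG N) := {k | k ∈ G ∧ tp (mt k) * mt k = 1}

/-- `Ad(k) X = k X k⁻¹` -/
def Ad (k : GG N) (X : MM N) : MM N := mt k * X * mt k⁻¹

/-- the commutator -/
def br (X Y : MM N) : MM N := X * Y - Y * X

/-- `𝔭(G)` is the direct sum of the pairwise commuting Lie triples `P j` -/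
structure Ideals (G : Subgroup (GG N)) (P : Fin m → Submodule ℝ (MM N)) : Prop where
  sup : ∀ X, X ∈ pp G ↔ X ∈ ⨆ j, P j
  ind : iSupIndep P
  com : ∀ i j, i ≠ j → ∀ X ∈ P i, ∀ Y ∈ P j, X * Y = Y * X
  tri : ∀ j, ∀ X ∈ P j, ∀ Y ∈ P j, ∀ Z ∈ P j, br (br X Y) Z ∈ P j

/-- `L` is a closed self-adjoint subgroup of `G` and `𝔭(L)` is the direct sum of its
intersections with the `P j`: the components in the `P j` of the elements of `𝔭(L)` are in `𝔭(L)` -/
def Split (G : Subgroup (GG N)) (P : Fin m → Submodule ℝ (MM N)) (L : Subgroup (GG N)) : Prop :=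
  L ≤ G ∧ SelfAdj L ∧
    ∀ Y : Fin m → MM N, (∀ j, Y j ∈ P j) → ∑ j, Y j ∈ pp L → ∀ j, Y j ∈ pp L

end Pool.Agent.MP417S
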