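import Pool.Agent.Lib.MP_417c68_gt_S.Defs

/-!
# MP_417c68_gt: definitions for the statement about simple factors
-/

noncomputable section

namespace Pool.Agent.MP417S

open Matrix Module

variable {n m : ℕ} {N : Fin n → ℕ}

/-- `Q = (Q ∩ 𝔭(H)) ⊕ Ad(k) (Q ∩ 𝔭(L))` for all `k` in the maximal compact subgroup of `G` -/
def CplP (G : Subgroup (GG N)) (Q : Submodule ℝ (MM N)) (H L : Subgroup (GG N)) : Prop :=
  ∀ k ∈ KK G, (∀ x ∈ Q, x ∈ pp H → ∀ y ∈ Q, y ∈ pp L → x = Ad k y → x = 0) ∧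
    ∀ z ∈ Q, ∃ x ∈ Q, x ∈ pp H ∧ ∃ y ∈ Q, y ∈ pp L ∧ z = x + Ad k y

/-- `V` is a Lie triple of symmetric elements -/
def Trp (V : Submodule ℝ (MM N)) : Prop :=
  (∀ X ∈ V, tp X = X) ∧ ∀ X ∈ V, ∀ Y ∈ V, ∀ Z ∈ V, br (br X Y) Z ∈ V

/-- `Q` is rigid: it is not the sum of two nonzero complementary Lie triples -/
def RigP (G : Subgroup (GG N)) (Q : Submodule ℝ (MM N)) : Prop :=
  ∀ A B : Submodule ℝ (MM N), Trp A → Trp B → A ≤ Q → B ≤ Q →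
    finrank ℝ A + finrank ℝ B = finrank ℝ Q →
    (∀ k ∈ KK G, ∀ x ∈ A, ∀ y ∈ B, x = Ad k y → x = 0) → A = ⊥ ∨ B = ⊥

/-- for some set `J` of indices outside `A`: the projection of `𝔭(H)` to the sum of the `P j`,
`j ∈ J`, is onto and the projection to the sum of the `P j`, `j ∈ J ∪ A`, is injective -/
def CritP (G : Subgroup (GG N)) (P : Fin m → Submodule ℝ (MM N)) (A : Finset (Fin m))
    (H : Subgroup (GG N)) : Prop :=
  ∃ J : Finset (Fin m), Disjoint J A ∧ (∀ Z ∈ pp G, ∃ X ∈ pp H, X - Z ∈ ⨆ j ∈ Jᶜ, P j) ∧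
    ∀ X ∈ pp H, X ∈ ⨆ j ∈ (J ∪ A)ᶜ, P j → X = 0

/-- `Q` has real rank at most one -/
def Rk1P (Q : Submodule ℝ (MM N)) : Prop :=
  ∀ X ∈ Q, ∀ Y ∈ Q, X * Y = Y * X → ∃ c : ℝ, X = c • Y ∨ Y = c • X

/-- `Q` has trivial centre, real rank two, and all nonzero elements which are conjugate to their
negatives are conjugate up to scalars (restricted root system of type `A₂`) -/
structure TwoAP (G : Subgroup (GG N)) (Q : Submodule ℝ (MM N)) : Prop where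
  cen : ∀ X ∈ Q, (∀ Y ∈ Q, X * Y = Y * X) → X = 0
  reg : ∀ X ∈ Q, ∀ Y ∈ Q, X * Y = Y * X → (∀ c : ℝ, X ≠ c • Y ∧ Y ≠ c • X) →
    ∃ Z ∈ Submodule.span ℝ {X, Y}, ∀ W ∈ Q, Z * W = W * Z → W ∈ Submodule.span ℝ {X, Y}
  inv : ∀ X ∈ Q, ∀ Y ∈ Q, X ≠ 0 → Y ≠ 0 → (∃ k ∈ KK G, Ad k X = -X) →
    (∃ k ∈ KK G, Ad k Y = -Y) → ∃ k ∈ KK G, ∃ c : ℝ, Y = c • Ad k X

/-- the set `A` acts irreducibly on `Q` -/
def Irr (A : Set (GG N)) (Q : Submodule ℝ (MM N)) : Prop :=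
  ∀ U ≤ Q, (∀ a ∈ A, ∀ x ∈ U, Ad a x ∈ U) → U = ⊥ ∨ U = Q

/-- for every factorization `K = A B` of the maximal compact subgroup `K` of `G` into compact
subgroups one of `A`, `B` acts irreducibly on `Q` -/
def IndK (G : Subgroup (GG N)) (Q : Submodule ℝ (MM N)) : Prop :=
  ∀ A B : Subgroup (GG N), IsCompact (A : Set (GG N)) → IsCompact (B : Set (GG N)) →
    (A : Set (GG N)) ⊆ KK G → (B : Set (GG N)) ⊆ KK G →
    (∀ k ∈ KK G, ∃ a ∈ A, ∃ b ∈ B, k = a * b) → Irr (A : Set (GG N)) Q ∨ Irr (B : Set (GG N)) Q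

/-- `Q` consists of all symmetric matrices of trace `0` in one block `i` (and `0` in the other
blocks): a factor `SL(N i, ℝ)` -/
def SLP (Q : Submodule ℝ (MM N)) : Prop :=
  ∃ i, ∀ X, X ∈ Q ↔ (∀ i', i' ≠ i → X i' = 0) ∧ (X i)ᵀ = X i ∧ (X i).trace = 0

end Pool.Agent.MP417S
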