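import Pool.Agent.Lib.MP_417c68_gt_S.Defs

/-!
# MP_417c68_gt: definitions for the statement about transitive actions
-/

noncomputable section

namespace Pool.Agent.MP417S

open Matrix Module

variable {n m : ℕ} {N : Fin n → ℕ}

/-- `L` has only finitely many orbits in `G/H`, all with compact isotropy groups: `G` is the union
of the sets `L f H`, `f ∈ F`, with `F` finite, and `L ∩ f H f⁻¹` is compact -/
def FinOrb (G L H : Subgroup (GG N)) : Prop :=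
  ∃ F : Finset (GG N), (∀ f ∈ F, f ∈ G ∧ IsCompact {l | l ∈ L ∧ l ∈ cj f H}) ∧
    ∀ g ∈ G, ∃ f ∈ F, ∃ l ∈ L, ∃ h ∈ H, g = l * f * h

/-- `G = L H` with compact intersection: `L` acts transitively on `G/H` with compact isotropy
groups -/
def Fct (G L H : Subgroup (GG N)) : Prop :=
  (∀ g ∈ G, ∃ l ∈ L, ∃ h ∈ H, g = l * h) ∧ IsCompact {l | l ∈ L ∧ l ∈ H}

/-- `R` is a subset of the maximal compact subgroup `K` of `G` which meets every connected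
component of `K` -/
def Repr (G : Subgroup (GG N)) (R : Set (GG N)) : Prop :=
  R ⊆ KK G ∧ ∀ k ∈ KK G, ∃ r ∈ R, k ∈ connectedComponentIn (KK G) r

/-- `𝔭(G) = 𝔭(H) ⊕ Ad(r) 𝔭(L)` -/
def DirSum (G H L : Subgroup (GG N)) (r : GG N) : Prop :=
  (∀ x ∈ pp H, ∀ y ∈ pp L, x = Ad r y → x = 0) ∧
    ∀ z ∈ pp G, ∃ x ∈ pp H, ∃ y ∈ pp L, z = x + Ad r y

/-- the subspace `[𝔭(G), 𝔭(G)]` -/
def kk (G : Subgroup (GG N)) : Submodule ℝ (MM N) :=
  Submodule.span ℝ {A | ∃ X ∈ pp G, ∃ Y ∈ pp G, A = br X Y}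

/-- every element of `[𝔭(G), 𝔭(G)]` is the sum of an element which normalizes `𝔭(H)` and an
element which normalizes `Ad(r) 𝔭(L)` -/
def SumN (G H L : Subgroup (GG N)) (r : GG N) : Prop :=
  ∀ ξ ∈ kk G, ∃ b ∈ kk G, ∃ a ∈ kk G, ξ = b + a ∧ (∀ v ∈ pp H, br b v ∈ pp H) ∧
    ∀ w ∈ pp L, ∃ w' ∈ pp L, br a (Ad r w) = Ad r w'

/-- every `k` in the maximal compact subgroup `K` of `G` is a product `k = l h` with `l, h ∈ K`,
`Ad(l) 𝔭(L) = 𝔭(L)` and `Ad(h) 𝔭(H) = 𝔭(H)` -/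
def KFct (G H L : Subgroup (GG N)) : Prop :=
  ∀ k ∈ KK G, ∃ l ∈ KK G, ∃ h ∈ KK G, k = l * h ∧ Ad l '' pp L = pp L ∧ Ad h '' pp H = pp H

end Pool.Agent.MP417S
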