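import Pool.Agent.Lib.MP_417c68_gt_S.Tr

/-!
# MP_417c68_gt: Theorems T and P in terms of the definitions of `S/Defs.lean`
-/

noncomputable section

namespace Pool.Agent.MP417S

open Matrix Module

variable {n m : ℕ} {N : Fin n → ℕ} {G : Subgroup (GG N)}

theorem t_orb (hG : SelfAdj G) (H : Subgroup (GG N)) (hH : Red G H) :
    Std G H ↔ ∃ H' L', Red G H' ∧ Red G L' ∧ CocptIn H H' ∧ FinOrb G L' H' := by
  refine (tr_std G H).trans ((MP_417c68_gt.std_iff_orb ((tr_selfAdj G).1 hG)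
    ((tr_red G H).1 hH)).trans ?_)
  refine exists_congr fun H' => exists_congr fun L' => ?_
  exact and_congr (tr_red G H').symm (and_congr (tr_red G L').symm
    (and_congr_right fun _ => (tr_finOrb G L' H').symm))

theorem t_alg (hG : SelfAdj G) {R : Set (GG N)} (hR : Repr G R) {H L : Subgroup (GG N)}
    (hHG : H ≤ G) (hLG : L ≤ G) (hH : SelfAdj H) (hL : SelfAdj L) :
    PC G H L ↔ ∀ r ∈ R, DirSum G H L r ∧ SumN G H L r := by
  have hG' := (tr_selfAdj G).1 hG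
  obtain ⟨h1, h2⟩ := tr_repr hR
  refine (MP_417c68_gt.alg_crit_gen hG' ((tr_selfAdj H).1 hH) ((tr_selfAdj L).1 hL) hHG hLG h1
    h2).trans ?_
  refine forall_congr' fun r => ?_
  constructor
  · intro h hr
    have hro := (h1 r hr).2
    exact ⟨(tr_dirSum hro).2 (h hr).1, (tr_sumN hG' hro).2 (h hr).2⟩
  · intro h hr
    have hro := (h1 r hr).2
    exact ⟨(tr_dirSum hro).1 (h hr).1, (tr_sumN hG' hro).1 (h hr).2⟩

theorem t_split (hG : SelfAdj G) (hK : IsPreconnected (KK G)) {P : Fin m → Submodule ℝ (MM N)}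
    (hP : Ideals G P) (H : Subgroup (GG N)) (hH : Red G H) :
    Std G H ↔ ∃ L' H', Split G P L' ∧ Red G H' ∧ CocptIn H H' ∧ Fct G L' H' := by
  refine (tr_std G H).trans ((MP_417c68_gt.std_iff_split ((tr_selfAdj G).1 hG)
    ((tr_kconn G).1 hK) ((tr_ideals G P).1 hP) ((tr_red G H).1 hH)).trans ?_)
  refine exists_congr fun L' => exists_congr fun H' => ?_
  constructor
  · rintro ⟨h1, h2, h3, h4, h5, h6⟩
    exact ⟨(tr_split G P L').2 ⟨h1, h2, h3⟩, (tr_red G H').2 h4, h5, h6⟩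
  · rintro ⟨h1, h4, h5, h6⟩
    obtain ⟨h1, h2, h3⟩ := (tr_split G P L').1 h1
    exact ⟨h1, h2, h3, (tr_red G H').1 h4, h5, h6⟩

theorem t_kfct (hG : SelfAdj G) (hK : IsPreconnected (KK G)) {H L : Subgroup (GG N)}
    (hHG : H ≤ G) (hLG : L ≤ G) (hH : SelfAdj H) (hL : SelfAdj L) :
    PC G H L ↔ DirSum G H L 1 ∧ KFct G H L := by
  have hG' := (tr_selfAdj G).1 hG
  have hH' := (tr_selfAdj H).1 hH
  have hL' := (tr_selfAdj L).1 hL
  have hK' := (tr_kconn G).1 hK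
  have ho : MP_417c68_gt.Orth (1 : (MP_417c68_gt.Alg N)ˣ) := MP_417c68_gt.orth_one
  have hDS : DirSum G H L 1 ↔ MP_417c68_gt.DirSum (N := N) G H L := by
    refine (tr_dirSum (r := (1 : GG N)) ho).trans ?_
    have h1 : MP_417c68_gt.cj (N := N) 1 L = up L := MP_417c68_gt.cj_one _
    exact Eq.to_iff (congrArg (MP_417c68_gt.DirSum (N := N) G H) h1)
  constructor
  · intro h
    have h1 := (MP_417c68_gt.alg_crit hG' hK' hH' hL' hHG hLG).1 h
    exact ⟨hDS.2 h1.1, (tr_kfct G H L).2 fun k hk ho =>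
      MP_417c68_gt.nk_mul hG' hK' hH' hL' hHG hLG h1.2 hk ho⟩
  · rintro ⟨h1, h2⟩
    exact (MP_417c68_gt.ky hG' hH' hL' hHG hLG).2
      (MP_417c68_gt.cpl_of_nk (hDS.1 h1) ((tr_kfct G H L).1 h2))

theorem t_csq (hB : ∀ L, Red G L → HasLat L) (H : Subgroup (GG N)) : CSQ G H ↔ Std G H :=
  (tr_csq G H).trans ((MP_417c68_gt.csq_iff_std (N := N) fun L hL =>
    hB L ((tr_red G L).2 hL)).trans (tr_std G H).symm)

theorem p_split (hG : SelfAdj G) (hK : IsPreconnected (KK G)) {P : Fin m → Submodule ℝ (MM N)}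
    (hP : Ideals G P) {H : Subgroup (GG N)} (hHG : H ≤ G) {a : GG N} (ha : a ∈ G)
    (hH : SelfAdj (cj a H)) :
    Std G H ↔ ∃ L H', Split G P L ∧ Split G P H' ∧ PC G H L ∧ PC G H' L ∧
      ∀ j, CplP G (P j) H' L := by
  have hH' : MP_417c68_gt.SelfAdj (MP_417c68_gt.cj (N := N) a H) := by
    rw [← tr_cj]
    exact (tr_selfAdj _).1 hH
  refine (tr_std G H).trans ((MP_417c68_gt.thmP ((tr_selfAdj G).1 hG)
    ((tr_kconn G).1 hK) ((tr_ideals G P).1 hP) hHG ha hH').trans ?_)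
  constructor
  · rintro ⟨L, H', h1, h2, h3, h4, h5, h6, h7, h8, h9⟩
    exact ⟨L, H', (tr_split G P L).2 ⟨h1, h3, h5⟩, (tr_split G P H').2 ⟨h2, h4, h6⟩, h7, h8,
      fun j => (tr_cplP G (P j) H' L).2 (h9 j)⟩
  · rintro ⟨L, H', h1, h2, h7, h8, h9⟩
    obtain ⟨h1, h3, h5⟩ := (tr_split G P L).1 h1
    obtain ⟨h2, h4, h6⟩ := (tr_split G P H').1 h2
    exact ⟨L, H', h1, h2, h3, h4, h5, h6, h7, h8, fun j => (tr_cplP G (P j) H' L).1 (h9 j)⟩

theorem p_crit (hG : SelfAdj G) (hK : IsPreconnected (KK G)) {P : Fin m → Submodule ℝ (MM N)}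
    (hP : Ideals G P) {H : Subgroup (GG N)} (hHG : H ≤ G) {a : GG N} (ha : a ∈ G)
    (hH : SelfAdj (cj a H)) (A : Finset (Fin m))
    (hA : ∀ j ∈ A, ∀ X ∈ P j, ∀ Y ∈ P j, X * Y = Y * X) (hR : ∀ j ∉ A, RigP G (P j)) :
    Std G H ↔ CritP G P A (cj a H) := by
  have hH' : MP_417c68_gt.SelfAdj (MP_417c68_gt.cj (N := N) a H) := by
    rw [← tr_cj]
    exact (tr_selfAdj _).1 hH
  have hc : CritP G P A (cj a H) ↔ MP_417c68_gt.CritP (N := N) G P A
      (MP_417c68_gt.cj (N := N) a H) := by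
    rw [← tr_cj]
    exact tr_critP G P A _
  exact (tr_std G H).trans ((MP_417c68_gt.crit ((tr_selfAdj G).1 hG) ((tr_kconn G).1 hK)
    ((tr_ideals G P).1 hP) hHG ha hH' A hA fun j hj => (tr_rigP G (P j)).1 (hR j hj)).trans
    hc.symm)

theorem p_rig (hG : SelfAdj G) (hK : IsPreconnected (KK G)) {P : Fin m → Submodule ℝ (MM N)}
    (hP : Ideals G P) (j : Fin m) (h : Rk1P (P j) ∨ TwoAP G (P j) ∨ IndK G (P j)) :
    RigP G (P j) := by
  have hG' := (tr_selfAdj G).1 hG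
  have hK' := (tr_kconn G).1 hK
  have hP' := (tr_ideals G P).1 hP
  refine (tr_rigP G (P j)).2 ?_
  rcases h with h | h | h
  · exact MP_417c68_gt.rk1P hG' hK' hP' h
  · exact MP_417c68_gt.twoAP hG' hK' hP' (tr_twoAP h)
  · exact MP_417c68_gt.indP hG' hK' hP' (tr_indK h)

end Pool.Agent.MP417S
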