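import Pool.Agent.Lib.MP_417c68_gt_S.Main
import Pool.Agent.Lib.MP_417c68_gt_N.SL

/-!
# MP_417c68_gt: rigid factors, with the factors `SL(d, ℝ)`
-/

noncomputable section

namespace Pool.Agent.MP417S

open Matrix Module

variable {n m : ℕ} {N : Fin n → ℕ} {G : Subgroup (GG N)}

theorem n_rig (hG : SelfAdj G) (hK : IsPreconnected (KK G)) {P : Fin m → Submodule ℝ (MM N)}
    (hP : Ideals G P) (j : Fin m)
    (h : Rk1P (P j) ∨ TwoAP G (P j) ∨ IndK G (P j) ∨ SLP (P j)) : RigP G (P j) := by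
  rcases h with h | h | h | ⟨i, h⟩
  · exact p_rig hG hK hP j (Or.inl h)
  · exact p_rig hG hK hP j (Or.inr (Or.inl h))
  · exact p_rig hG hK hP j (Or.inr (Or.inr h))
  · exact (tr_rigP G (P j)).2 (MP417N.slP (i := i) ((tr_selfAdj G).1 hG) ((tr_kconn G).1 hK)
      ((tr_ideals G P).1 hP) h)

end Pool.Agent.MP417S
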