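import Pool.Agent.Lib.MP_417c68_gt_S.DefsT
import Pool.Agent.Lib.MP_417c68_gt_S.DefsP
import Pool.Agent.Lib.MP_417c68_gt_T.Comb
import Pool.Agent.Lib.MP_417c68_gt_T.FinG
import Pool.Agent.Lib.MP_417c68_gt_T.Indec
import Pool.Agent.Lib.MP_417c68_gt_P.J.Crit
import Pool.Agent.Lib.MP_417c68_gt_D.Csq

/-!
# MP_417c68_gt: comparison of the definitions in `S/Defs.lean` with those of the library
-/

noncomputable section

namespace Pool.Agent.MP417S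

open Matrix Module

variable {n m : ℕ} {N : Fin n → ℕ}

/-- the same group, as a group of units -/
abbrev up (G : Subgroup (GG N)) : Subgroup (MP_417c68_gt.Alg N)ˣ := G

theorem tr_orth (k : GG N) : tp (mt k) * mt k = 1 ↔ MP_417c68_gt.Orth (N := N) k :=
  ⟨fun h i => congrFun h i, fun h => funext h⟩

theorem mem_KK {G : Subgroup (GG N)} {k : GG N} :
    k ∈ KK G ↔ k ∈ G ∧ MP_417c68_gt.Orth (N := N) k :=
  and_congr_right fun _ => tr_orth k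

theorem tr_pp (G : Subgroup (GG N)) (X : MM N) : X ∈ pp G ↔ X ∈ MP_417c68_gt.pp (N := N) G := by
  refine and_congr ⟨fun h i => congrFun h i, fun h => funext h⟩ (forall_congr' fun t => ?_)
  constructor
  · rintro ⟨g, hg, e⟩
    have h : g = MP_417c68_gt.eu (N := N) (t • X) := Units.ext e
    exact Eq.mp (congrArg (fun u : GG N => u ∈ G) h) hg
  · intro h
    exact ⟨_, h, rfl⟩

theorem tr_selfAdj (G : Subgroup (GG N)) : SelfAdj G ↔ MP_417c68_gt.SelfAdj (N := N) G := by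
  constructor
  · rintro ⟨h1, h2⟩
    refine ⟨h1, fun h hh => ?_⟩
    obtain ⟨X, hX, e⟩ := h2 h hh
    exact ⟨X, (tr_pp G X).1 hX, fun i => congrFun e i⟩
  · intro h
    refine ⟨h.closed, fun g hg => ?_⟩
    obtain ⟨X, hX, e⟩ := h.polar g hg
    exact ⟨X, (tr_pp G X).2 hX, funext e⟩

theorem tr_mem_cj (a : GG N) (H : Subgroup (GG N)) (g : GG N) : g ∈ cj a H ↔ a⁻¹ * g * a ∈ H := by
  constructor
  · rintro ⟨h, hh, rfl⟩
    show a⁻¹ * (a * h * a⁻¹) * a ∈ H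
    have e : a⁻¹ * (a * h * a⁻¹) * a = h := by group
    rw [e]
    exact hh
  · intro h
    refine ⟨_, h, ?_⟩
    show a * (a⁻¹ * g * a) * a⁻¹ = g
    group

theorem tr_cj (a : GG N) (H : Subgroup (GG N)) : cj a H = MP_417c68_gt.cj (N := N) a H :=
  Subgroup.ext fun g => tr_mem_cj a H g

theorem tr_red (G H : Subgroup (GG N)) : Red G H ↔ MP_417c68_gt.Red (N := N) G H := by
  refine and_congr_right fun _ => exists_congr fun a => and_congr_right fun _ => ?_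
  rw [tr_selfAdj, tr_cj]

theorem tr_std (G H : Subgroup (GG N)) : Std G H ↔ MP_417c68_gt.Std (N := N) G H :=
  exists_congr fun L => and_congr_left fun _ => tr_red G L

theorem tr_csq (G H : Subgroup (GG N)) : CSQ G H ↔ MP_417c68_gt.CSQ (N := N) G H :=
  exists_congr fun L => exists_congr fun _ => and_congr_left fun _ => tr_red G L

theorem tr_kconn (G : Subgroup (GG N)) :
    IsPreconnected (KK G) ↔ MP_417c68_gt.Kconn (N := N) G := by
  have h : KK G = {k : (MP_417c68_gt.Alg N)ˣ | k ∈ G ∧ MP_417c68_gt.Orth k} :=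
    Set.ext fun k => mem_KK
  rw [h]
  exact Iff.rfl

theorem tr_ideals (G : Subgroup (GG N)) (P : Fin m → Submodule ℝ (MM N)) :
    Ideals G P ↔ MP_417c68_gt.Ideals (N := N) G P :=
  ⟨fun h => ⟨fun X => (tr_pp G X).symm.trans (h.sup X), h.ind, h.com, h.tri⟩,
    fun h => ⟨fun X => (tr_pp G X).trans (h.sup X), h.ind, h.com, h.tri⟩⟩

theorem tr_split (G : Subgroup (GG N)) (P : Fin m → Submodule ℝ (MM N)) (L : Subgroup (GG N)) :
    Split G P L ↔ L ≤ G ∧ MP_417c68_gt.SelfAdj (N := N) L ∧ MP_417c68_gt.SplP (N := N) P L := by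
  refine and_congr_right fun _ => and_congr (tr_selfAdj L) ?_
  refine forall_congr' fun Y => imp_congr_right fun _ => ?_
  exact imp_congr (tr_pp L _) (forall_congr' fun j => tr_pp L _)

/-! ### the statement about transitive actions -/

theorem tr_finOrb (G L H : Subgroup (GG N)) :
    FinOrb G L H ↔ MP_417c68_gt.FinOrb (N := N) G L H := by
  have h : ∀ f : GG N, {l | l ∈ L ∧ l ∈ cj f H} = (up L : Set (MP_417c68_gt.Alg N)ˣ) ∩
      (MP_417c68_gt.cj (N := N) f H : Set (MP_417c68_gt.Alg N)ˣ) := fun f => by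
    rw [tr_cj]
    rfl
  refine exists_congr fun F => and_congr_left fun _ => ?_
  refine forall_congr' fun f => imp_congr_right fun _ => and_congr_right fun _ => ?_
  rw [h]
  exact Iff.rfl

theorem tr_repr {G : Subgroup (GG N)} {R : Set (GG N)} (h : Repr G R) :
    (∀ r ∈ R, r ∈ G ∧ MP_417c68_gt.Orth (N := N) r) ∧
      ∀ k ∈ G, MP_417c68_gt.Orth (N := N) k → ∃ r ∈ R, k ∈ connectedComponentIn
        {k : (MP_417c68_gt.Alg N)ˣ | k ∈ G ∧ MP_417c68_gt.Orth k} r := by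
  have e : KK G = {k : (MP_417c68_gt.Alg N)ˣ | k ∈ G ∧ MP_417c68_gt.Orth k} :=
    Set.ext fun k => mem_KK
  refine ⟨fun r hr => mem_KK.1 (h.1 hr), fun k hk ho => ?_⟩
  obtain ⟨r, hr, h1⟩ := h.2 k (mem_KK.2 ⟨hk, ho⟩)
  refine ⟨r, hr, ?_⟩
  rw [e] at h1
  exact h1

theorem tr_pp_cj {L : Subgroup (GG N)} {r : GG N} (hr : MP_417c68_gt.Orth (N := N) r) (y : MM N) :
    y ∈ MP_417c68_gt.pp (N := N) (MP_417c68_gt.cj (N := N) r L) ↔ ∃ y' ∈ pp L, y = Ad r y' := by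
  refine (MP_417c68_gt.mem_pp_cj (N := N) hr).trans ?_
  constructor
  · intro h
    exact ⟨_, (tr_pp L _).2 h, (MP_417c68_gt.cA_cA_inv (N := N) r y).symm⟩
  · rintro ⟨y', hy', rfl⟩
    have h2 : y' = MP_417c68_gt.cA (N := N) r⁻¹ (Ad r y') :=
      (MP_417c68_gt.cA_inv_cA (N := N) r y').symm
    exact Eq.mp (congrArg (fun u : MP_417c68_gt.Alg N => u ∈ MP_417c68_gt.pp (N := N) L) h2)
      ((tr_pp L _).1 hy')

theorem tr_dirSum {G H L : Subgroup (GG N)} {r : GG N} (hr : MP_417c68_gt.Orth (N := N) r) :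
    DirSum G H L r ↔ MP_417c68_gt.DirSum (N := N) G H (MP_417c68_gt.cj (N := N) r L) := by
  constructor
  · rintro ⟨h2, h3⟩
    refine ⟨fun x hx hx' => ?_, fun z hz => ?_⟩
    · obtain ⟨y', hy', e⟩ := (tr_pp_cj hr x).1 hx'
      exact h2 x ((tr_pp H x).2 hx) y' hy' e
    · obtain ⟨x, hx, y, hy, e⟩ := h3 z ((tr_pp G z).2 hz)
      exact ⟨x, (tr_pp H x).1 hx, _, (tr_pp_cj hr _).2 ⟨y, hy, rfl⟩, e⟩
  · rintro ⟨h2, h3⟩
    refine ⟨fun x hx y hy e => ?_, fun z hz => ?_⟩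
    · exact h2 x ((tr_pp H x).1 hx) ((tr_pp_cj hr x).2 ⟨y, hy, e⟩)
    · obtain ⟨x, hx, y, hy, e⟩ := h3 z ((tr_pp G z).1 hz)
      obtain ⟨y', hy', rfl⟩ := (tr_pp_cj hr y).1 hy
      exact ⟨x, (tr_pp H x).2 hx, y', hy', e⟩

theorem tr_kk {G : Subgroup (GG N)} (hG : MP_417c68_gt.SelfAdj (N := N) G) :
    kk G = MP_417c68_gt.kV (N := N) (MP_417c68_gt.pS (N := N) G) := by
  have h : {A : MM N | ∃ X ∈ pp G, ∃ Y ∈ pp G, A = br X Y} =
      {A : MP_417c68_gt.Alg N | ∃ X ∈ MP_417c68_gt.pS (N := N) G,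
        ∃ Y ∈ MP_417c68_gt.pS (N := N) G, A = MP_417c68_gt.br X Y} := by
    ext A
    constructor
    · rintro ⟨X, hX, Y, hY, rfl⟩
      exact ⟨X, (MP_417c68_gt.mem_pS hG.closed).2 ((tr_pp G X).1 hX), Y,
        (MP_417c68_gt.mem_pS hG.closed).2 ((tr_pp G Y).1 hY), rfl⟩
    · rintro ⟨X, hX, Y, hY, rfl⟩
      exact ⟨X, (tr_pp G X).2 ((MP_417c68_gt.mem_pS hG.closed).1 hX), Y,
        (tr_pp G Y).2 ((MP_417c68_gt.mem_pS hG.closed).1 hY), rfl⟩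
  unfold kk MP_417c68_gt.kV
  rw [h]
  rfl

theorem tr_sumN {G H L : Subgroup (GG N)} (hG : MP_417c68_gt.SelfAdj (N := N) G) {r : GG N}
    (hr : MP_417c68_gt.Orth (N := N) r) :
    SumN G H L r ↔ MP_417c68_gt.SumN (N := N) G H (MP_417c68_gt.cj (N := N) r L) := by
  have hk : ∀ ξ, ξ ∈ kk G ↔ ξ ∈ MP_417c68_gt.kV (N := N) (MP_417c68_gt.pS (N := N) G) := fun ξ => by
    rw [tr_kk hG]
    exact Iff.rfl
  constructor
  · intro h ξ hξ
    obtain ⟨b, hb, a, ha, e, h1, h2⟩ := h ξ ((hk ξ).2 hξ)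
    refine ⟨a, (hk a).1 ha, b, (hk b).1 hb, e.trans (add_comm _ _), fun w hw => ?_,
      fun v hv => (tr_pp H _).1 (h1 v ((tr_pp H v).2 hv))⟩
    obtain ⟨y, hy, rfl⟩ := (tr_pp_cj hr w).1 hw
    obtain ⟨y', hy', e'⟩ := h2 y hy
    exact (tr_pp_cj hr _).2 ⟨y', hy', e'⟩
  · intro h ξ hξ
    obtain ⟨a, ha, b, hb, e, h1, h2⟩ := h ξ ((hk ξ).1 hξ)
    refine ⟨b, (hk b).2 hb, a, (hk a).2 ha, e.trans (add_comm _ _),
      fun v hv => (tr_pp H _).2 (h2 v ((tr_pp H v).1 hv)), fun w hw => ?_⟩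
    exact (tr_pp_cj hr _).1 (h1 _ ((tr_pp_cj hr _).2 ⟨w, hw, rfl⟩))

theorem tr_nk {G H : Subgroup (GG N)} {k : GG N} :
    k ∈ KK G ∧ Ad k '' pp H = pp H ↔ k ∈ MP_417c68_gt.NK (N := N) G H := by
  refine (and_congr_left fun _ => mem_KK).trans
    (Iff.trans ?_ (MP_417c68_gt.mem_NK (N := N)).symm)
  constructor
  · rintro ⟨⟨h1, h2⟩, h3⟩
    refine ⟨h1, h2, fun x hx => ?_, fun x hx => ?_⟩
    · refine (tr_pp H _).1 ?_
      rw [← h3]
      exact ⟨x, (tr_pp H x).2 hx, rfl⟩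
    · have h4 : x ∈ Ad k '' pp H := by
        rw [h3]
        exact (tr_pp H x).2 hx
      obtain ⟨y, hy, rfl⟩ := h4
      have h5 : y = MP_417c68_gt.cA (N := N) k⁻¹ (Ad k y) :=
        (MP_417c68_gt.cA_inv_cA (N := N) k y).symm
      exact Eq.mp (congrArg (fun u : MP_417c68_gt.Alg N => u ∈ MP_417c68_gt.pp (N := N) H) h5)
        ((tr_pp H _).1 hy)
  · rintro ⟨h1, h2, h3, h4⟩
    refine ⟨⟨h1, h2⟩, Set.ext fun x => ⟨?_, fun hx => ?_⟩⟩
    · rintro ⟨y, hy, rfl⟩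
      exact (tr_pp H _).2 (h3 y ((tr_pp H y).1 hy))
    · exact ⟨_, (tr_pp H _).2 (h4 x ((tr_pp H x).1 hx)), MP_417c68_gt.cA_cA_inv (N := N) k x⟩

theorem tr_kfct (G H L : Subgroup (GG N)) :
    KFct G H L ↔ ∀ k ∈ G, MP_417c68_gt.Orth (N := N) k →
      ∃ l ∈ MP_417c68_gt.NK (N := N) G L, ∃ h ∈ MP_417c68_gt.NK (N := N) G H, k = l * h := by
  constructor
  · intro h k hk ho
    obtain ⟨l, hl, b, hb, e, h1, h2⟩ := h k (mem_KK.2 ⟨hk, ho⟩)
    exact ⟨l, tr_nk.1 ⟨hl, h1⟩, b, tr_nk.1 ⟨hb, h2⟩, e⟩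
  · intro h k hk
    obtain ⟨l, hl, b, hb, e⟩ := h k (mem_KK.1 hk).1 (mem_KK.1 hk).2
    have h1 := tr_nk.2 hl
    have h2 := tr_nk.2 hb
    exact ⟨l, h1.1, b, h2.1, e, h1.2, h2.2⟩

/-! ### the statement about simple factors -/

theorem tr_cplP (G : Subgroup (GG N)) (Q : Submodule ℝ (MM N)) (H L : Subgroup (GG N)) :
    CplP G Q H L ↔ MP_417c68_gt.CplP (N := N) G Q H L := by
  constructor
  · intro h k hk ho
    obtain ⟨h1, h2⟩ := h k (mem_KK.2 ⟨hk, ho⟩)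
    refine ⟨fun x hx hxH y hy hyL e => h1 x hx ((tr_pp H x).2 hxH) y hy ((tr_pp L y).2 hyL) e,
      fun z hz => ?_⟩
    obtain ⟨x, hx, hxH, y, hy, hyL, e⟩ := h2 z hz
    exact ⟨x, hx, (tr_pp H x).1 hxH, y, hy, (tr_pp L y).1 hyL, e⟩
  · intro h k hk
    obtain ⟨h1, h2⟩ := h k (mem_KK.1 hk).1 (mem_KK.1 hk).2
    refine ⟨fun x hx hxH y hy hyL e => h1 x hx ((tr_pp H x).1 hxH) y hy ((tr_pp L y).1 hyL) e,
      fun z hz => ?_⟩
    obtain ⟨x, hx, hxH, y, hy, hyL, e⟩ := h2 z hz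
    exact ⟨x, hx, (tr_pp H x).2 hxH, y, hy, (tr_pp L y).2 hyL, e⟩

theorem tr_trp (V : Submodule ℝ (MM N)) : Trp V ↔ MP_417c68_gt.Trp (N := N) V :=
  ⟨fun h => ⟨fun X hX i => congrFun (h.1 X hX) i, h.2⟩,
    fun h => ⟨fun X hX => funext (h.sym X hX), h.tri⟩⟩

theorem tr_rigP (G : Subgroup (GG N)) (Q : Submodule ℝ (MM N)) :
    RigP G Q ↔ MP_417c68_gt.RigP (N := N) G Q := by
  constructor
  · intro h A B hA hB hAQ hBQ hd hk
    exact h A B ((tr_trp A).2 hA) ((tr_trp B).2 hB) hAQ hBQ hd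
      fun k hk' => hk k (mem_KK.1 hk').1 (mem_KK.1 hk').2
  · intro h A B hA hB hAQ hBQ hd hk
    exact h A B ((tr_trp A).1 hA) ((tr_trp B).1 hB) hAQ hBQ hd
      fun k hk' ho => hk k (mem_KK.2 ⟨hk', ho⟩)

theorem tr_critP (G : Subgroup (GG N)) (P : Fin m → Submodule ℝ (MM N)) (A : Finset (Fin m))
    (H : Subgroup (GG N)) : CritP G P A H ↔ MP_417c68_gt.CritP (N := N) G P A H := by
  refine exists_congr fun J => and_congr_right fun _ => and_congr ?_ ?_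
  · constructor
    · intro h Z hZ
      obtain ⟨X, hX, e⟩ := h Z ((tr_pp G Z).2 hZ)
      exact ⟨X, (tr_pp H X).1 hX, e⟩
    · intro h Z hZ
      obtain ⟨X, hX, e⟩ := h Z ((tr_pp G Z).1 hZ)
      exact ⟨X, (tr_pp H X).2 hX, e⟩
  · exact ⟨fun h X hX => h X ((tr_pp H X).2 hX), fun h X hX => h X ((tr_pp H X).1 hX)⟩

theorem tr_twoAP {G : Subgroup (GG N)} {Q : Submodule ℝ (MM N)} (h : TwoAP G Q) :
    MP_417c68_gt.TwoAP (N := N) G Q := by
  refine ⟨h.cen, h.reg, fun X hX Y hY hX0 hY0 h1 h2 => ?_⟩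
  obtain ⟨k, hk, ho, e⟩ := h1
  obtain ⟨k', hk', ho', e'⟩ := h2
  obtain ⟨g, hg, c, e2⟩ := h.inv X hX Y hY hX0 hY0 ⟨k, mem_KK.2 ⟨hk, ho⟩, e⟩
    ⟨k', mem_KK.2 ⟨hk', ho'⟩, e'⟩
  exact ⟨g, (mem_KK.1 hg).1, (mem_KK.1 hg).2, c, e2⟩

theorem tr_indK {G : Subgroup (GG N)} {Q : Submodule ℝ (MM N)} (h : IndK G Q) :
    MP_417c68_gt.IndK (N := N) G Q := by
  intro A B hA hB hAG hBG hk
  exact h A B hA hB (fun a ha => mem_KK.2 (hAG a ha)) (fun b hb => mem_KK.2 (hBG b hb))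
    fun k hk' => hk k (mem_KK.1 hk').1 (mem_KK.1 hk').2

end Pool.Agent.MP417S
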